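import Pool.Agent.W314.BA.Stm

/-! BA-EN: decay of ball averages. -/

open MeasureTheory Set Filter Topology Real
open scoped ENNReal NNReal

namespace Pool.Agent.W612.BA

open Pool.Agent.W314.BA

section

variable {H : Type} [NormedAddCommGroup H] [InnerProductSpace ℂ H]

/-- the continuous extension of `A t g` to `t ≤ 1` -/
noncomputable def Gt (A : ℝ → H →L[ℂ] H) (g : H) (t : ℝ) : H := if t ≤ 1 then g else A t g

lemma Gt_of_lt (A : ℝ → H →L[ℂ] H) (g : H) {t : ℝ} (ht : 1 < t) : Gt A g t = A t g := by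
  unfold Gt; rw [if_neg (not_le.mpr ht)]

lemma Gt_cont {A : ℝ → H →L[ℂ] H} {f g : H} (hP : Pair A f g) : Continuous (Gt A g) := by
  rw [continuous_iff_continuousAt]
  intro t
  rcases lt_trichotomy t 1 with h | h | h
  · have he : Gt A g =ᶠ[𝓝 t] fun _ => g := by
      filter_upwards [Iio_mem_nhds h] with s hs
      unfold Gt; rw [if_pos (le_of_lt hs)]
    exact (continuousAt_const).congr he.symm
  · subst h
    have h1 : Gt A g 1 = g := by unfold Gt; rw [if_pos le_rfl]
    rw [ContinuousAt, h1, ← nhdsLE_sup_nhdsGT, tendsto_sup]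
    constructor
    · apply tendsto_const_nhds.congr'
      filter_upwards [self_mem_nhdsWithin] with s hs
      unfold Gt; rw [if_pos (show s ≤ 1 from hs)]
    · apply hP.lim.congr'
      filter_upwards [self_mem_nhdsWithin] with s hs
      rw [Gt_of_lt A g hs]
  · have h1 := (hP.cont.continuousAt (Ioi_mem_nhds h))
    apply h1.congr
    filter_upwards [Ioi_mem_nhds h] with s hs
    rw [Gt_of_lt A g hs]

/-- the weights -/
noncomputable def w1 (t : ℝ) : ℝ := (max t 1 + 1)⁻¹
noncomputable def w2 (t : ℝ) : ℝ := max t 1 * (max t 1 + 1)⁻¹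

lemma w1_cont : Continuous w1 := by
  unfold w1
  apply Continuous.inv₀
  · fun_prop
  · intro t
    have := le_max_right t 1
    linarith

lemma w2_cont : Continuous w2 := by
  have : w2 = fun t => max t 1 * w1 t := rfl
  rw [this]
  have := w1_cont
  fun_prop

lemma w1_of (t : ℝ) (ht : 1 ≤ t) : w1 t = (t + 1)⁻¹ := by unfold w1; rw [max_eq_left ht]
lemma w2_of (t : ℝ) (ht : 1 ≤ t) : w2 t = t * (t + 1)⁻¹ := by unfold w2; rw [max_eq_left ht]

/-- the two primitives -/
noncomputable def F1 (A : ℝ → H →L[ℂ] H) (g : H) (x : ℝ) : H := ∫ t in (1 : ℝ)..x, w1 t • Gt A g t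
noncomputable def F2 (A : ℝ → H →L[ℂ] H) (g : H) (x : ℝ) : H := ∫ t in (1 : ℝ)..x, w2 t • Gt A g t

variable [CompleteSpace H]

lemma F1_deriv {A : ℝ → H →L[ℂ] H} {f g : H} (hP : Pair A f g) (x : ℝ) :
    HasDerivAt (F1 A g) (w1 x • Gt A g x) x := by
  have hc : Continuous (fun t => w1 t • Gt A g t) := w1_cont.smul (Gt_cont hP)
  exact (hc.integral_hasStrictDerivAt 1 x).hasDerivAt

lemma F2_deriv {A : ℝ → H →L[ℂ] H} {f g : H} (hP : Pair A f g) (x : ℝ) :
    HasDerivAt (F2 A g) (w2 x • Gt A g x) x := by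
  have hc : Continuous (fun t => w2 t • Gt A g t) := w2_cont.smul (Gt_cont hP)
  exact (hc.integral_hasStrictDerivAt 1 x).hasDerivAt

lemma int_eq {A : ℝ → H →L[ℂ] H} {f g : H} (hP : Pair A f g) (x : ℝ) (hx : 1 < x) :
    ∫ t in (1 : ℝ)..x, ((x - t) / (t + 1)) • A t g = x • F1 A g x - F2 A g x := by
  have hc1 : Continuous (fun t => w1 t • Gt A g t) := w1_cont.smul (Gt_cont hP)
  have hc2 : Continuous (fun t => w2 t • Gt A g t) := w2_cont.smul (Gt_cont hP)
  have h1 : ∫ t in (1 : ℝ)..x, ((x - t) / (t + 1)) • A t g =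
      ∫ t in (1 : ℝ)..x, (x • (w1 t • Gt A g t) - w2 t • Gt A g t) := by
    rw [intervalIntegral.integral_of_le hx.le, intervalIntegral.integral_of_le hx.le]
    apply setIntegral_congr_fun measurableSet_Ioc
    intro t ht
    show ((x - t) / (t + 1)) • A t g = x • (w1 t • Gt A g t) - w2 t • Gt A g t
    rw [Gt_of_lt A g ht.1, w1_of t ht.1.le, w2_of t ht.1.le, smul_smul, ← sub_smul]
    congr 1
    ring
  rw [h1, intervalIntegral.integral_sub, intervalIntegral.integral_smul]
  · rfl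
  · exact (hc1.const_smul x).intervalIntegrable _ _
  · exact hc2.intervalIntegrable _ _

lemma beta_eq {A : ℝ → H →L[ℂ] H} {f g : H} (hP : Pair A f g) (x : ℝ) (hx : 1 < x) :
    (x - 1) • A x f = (x - 1) • f - (x • F1 A g x - F2 A g x) := by
  have h := hP.eq x hx
  rw [int_eq hP x hx] at h
  rw [h, smul_sub, smul_smul, mul_inv_cancel₀ (by linarith : x - 1 ≠ 0), one_smul]

end

section
variable {H : Type} [NormedAddCommGroup H] [InnerProductSpace ℂ H] [CompleteSpace H]

/-- the pair relation is stable under the averages -/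
lemma pair_comp {A : ℝ → H →L[ℂ] H} {f g : H} (hA : AvSys A) (hP : Pair A f g) (x : ℝ)
    (hx : 1 < x) : Pair A (A x f) (A x g) := by
  refine ⟨?_, ?_, ?_, ?_⟩
  · have h : ContinuousOn (fun t => A x (A t f)) (Ioi 1) :=
      (A x).continuous.comp_continuousOn hP.contf
    exact h.congr (fun t ht => hA.comm t x ht hx f)
  · have h : ContinuousOn (fun t => A x (A t g)) (Ioi 1) :=
      (A x).continuous.comp_continuousOn hP.cont
    exact h.congr (fun t ht => hA.comm t x ht hx g)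
  · have h : Tendsto (fun t => A x (A t g)) (𝓝[>] 1) (𝓝 (A x g)) :=
      ((A x).continuous.tendsto g).comp hP.lim
    apply h.congr'
    filter_upwards [self_mem_nhdsWithin] with t ht
    exact (hA.comm t x ht hx g).symm
  · intro X hX
    rw [hA.comm X x hX hx f, hP.eq X hX, map_sub]
    congr 1
    have hsm : ∀ (r : ℝ) (u : H), A x (r • u) = r • A x u := fun r u => by
      rw [← Complex.coe_smul, map_smul, Complex.coe_smul]
    rw [hsm]
    congr 1
    have hc : Continuous (fun t => X • (w1 t • Gt A g t) - w2 t • Gt A g t) :=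
      ((w1_cont.smul (Gt_cont hP)).const_smul X).sub (w2_cont.smul (Gt_cont hP))
    have e1 : ∫ t in (1 : ℝ)..X, ((X - t) / (t + 1)) • A t g =
        ∫ t in (1 : ℝ)..X, (X • (w1 t • Gt A g t) - w2 t • Gt A g t) := by
      rw [intervalIntegral.integral_of_le hX.le, intervalIntegral.integral_of_le hX.le]
      apply setIntegral_congr_fun measurableSet_Ioc
      intro t ht
      show ((X - t) / (t + 1)) • A t g = X • (w1 t • Gt A g t) - w2 t • Gt A g t
      rw [Gt_of_lt A g ht.1, w1_of t ht.1.le, w2_of t ht.1.le, smul_smul, ← sub_smul]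
      congr 1
      ring
    rw [e1, ← ContinuousLinearMap.intervalIntegral_comp_comm (A x) (hc.intervalIntegrable _ _)]
    rw [intervalIntegral.integral_of_le hX.le, intervalIntegral.integral_of_le hX.le]
    apply setIntegral_congr_fun measurableSet_Ioc
    intro t ht
    show A x (X • (w1 t • Gt A g t) - w2 t • Gt A g t) = ((X - t) / (t + 1)) • A t (A x g)
    rw [Gt_of_lt A g ht.1, w1_of t ht.1.le, w2_of t ht.1.le, smul_smul, ← sub_smul, hsm,
      hA.comm t x ht.1 hx g]
    congr 1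
    ring

lemma F1_bd {A : ℝ → H →L[ℂ] H} {f g : H} (hA : AvSys A) (hP : Pair A f g) :
    ‖F1 A g 2‖ ≤ ‖g‖ := by
  have h : ∀ t ∈ Set.uIoc (1 : ℝ) 2, ‖w1 t • Gt A g t‖ ≤ ‖g‖ := by
    intro t ht
    rw [Set.uIoc_of_le (by norm_num)] at ht
    rw [Gt_of_lt A g ht.1, w1_of t ht.1.le, norm_smul]
    have h1 := hA.con t ht.1 g
    have h2 : ‖(t + 1)⁻¹‖ ≤ 1 := by
      rw [Real.norm_of_nonneg (by have := ht.1; positivity)]
      apply inv_le_one_of_one_le₀
      linarith [ht.1]
    calc ‖(t + 1)⁻¹‖ * ‖A t g‖ ≤ 1 * ‖g‖ :=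
          mul_le_mul h2 h1 (norm_nonneg _) zero_le_one
      _ = ‖g‖ := one_mul _
  have h3 := intervalIntegral.norm_integral_le_of_norm_le_const h
  have h4 : ‖g‖ * |(2 : ℝ) - 1| = ‖g‖ := by norm_num
  rw [h4] at h3
  exact h3

theorem main (h1 : ODEStmt) (h2 : ReidStmt) : EnergyStmt := by
  intro H _ _ _ A f g hA hP X κ₀ κ hX hκ hκ1 hκX hgap x hx
  have hκ0 : 0 < κ₀ := by nlinarith
  have hin : ∀ u v : H, @inner ℝ H (Inner.rclikeToReal ℂ H) u v = (inner ℂ u v).re := fun u v => rfl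
  have hsa : ∀ (x y : ℝ), 1 < x → 1 < y → inner ℂ (A x g) (A y f) = inner ℂ (A y g) (A x f) := by
    intro x y hx hy
    rw [← hA.sa y hy, ← hA.sa x hx, hA.comm x y hx hy]
  have key := @h1 H _ InnerProductSpace.complexToReal (fun x => (x - 1) • A x f)
    (fun x => f - F1 A g x) (fun x => (x - 1) • A x g) κ hκ hκ1 ?_ ?_ ?_ ?_ ?_ x hx
  · -- conclusion
    have hA2 := hA.con 2 (by norm_num) f
    have hg2 := hA.con 2 (by norm_num) g
    have hF := F1_bd hA hP
    have hN : ‖f - F1 A g 2‖ + ‖((2 : ℝ) - 1) • A 2 f‖ + ‖((2 : ℝ) - 1) • A 2 g‖ ≤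
        2 * (‖f‖ + ‖g‖) := by
      have e : (2 : ℝ) - 1 = 1 := by norm_num
      rw [e, one_smul, one_smul]
      have := norm_sub_le f (F1 A g 2)
      linarith
    have hN0 : 0 ≤ ‖f - F1 A g 2‖ + ‖((2 : ℝ) - 1) • A 2 f‖ + ‖((2 : ℝ) - 1) • A 2 g‖ := by
      positivity
    have key2 : ‖(x - 1) • A x f‖ ^ 2 ≤
        16 * x ^ 2 * (2 * (‖f‖ + ‖g‖)) ^ 2 * (x / 2) ^ (-(κ / 2)) := by
      refine key.trans ?_
      have hx0 : 0 < x := by linarith
      apply mul_le_mul_of_nonneg_right _ (by positivity)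
      apply mul_le_mul_of_nonneg_left _ (by positivity)
      exact pow_le_pow_left₀ hN0 hN 2
    rw [norm_smul, Real.norm_of_nonneg (by linarith), mul_pow] at key2
    have hx1 : 0 < (x - 1) ^ 2 := by
      have : 0 < x - 1 := by linarith
      positivity
    have hxx : x ^ 2 ≤ 4 * (x - 1) ^ 2 := by nlinarith
    have hr : 0 ≤ (x / 2) ^ (-(κ / 2)) := by
      have hx0 : 0 < x := by linarith
      positivity
    have h5 : (x - 1) ^ 2 * ‖A x f‖ ^ 2 ≤
        (x - 1) ^ 2 * (256 * (‖f‖ + ‖g‖) ^ 2 * (x / 2) ^ (-(κ / 2))) := by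
      refine key2.trans ?_
      have h6 : 0 ≤ (‖f‖ + ‖g‖) ^ 2 * (x / 2) ^ (-(κ / 2)) := by positivity
      nlinarith [mul_le_mul_of_nonneg_right hxx h6]
    exact le_of_mul_le_mul_left h5 hx1
  · intro x hx
    have hd : HasDerivAt (fun x : ℝ => (x - 1) • f - (x • F1 A g x - F2 A g x))
        ((1 : ℝ) • f - (x • (w1 x • Gt A g x) + (1 : ℝ) • F1 A g x - w2 x • Gt A g x)) x := by
      have e1 : HasDerivAt (fun x : ℝ => (x - 1) • f) ((1 : ℝ) • f) x :=
        ((hasDerivAt_id x).sub_const 1).smul_const f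
      have e2 : HasDerivAt (fun x : ℝ => x • F1 A g x)
          (x • (w1 x • Gt A g x) + (1 : ℝ) • F1 A g x) x :=
        (hasDerivAt_id x).smul (F1_deriv hP x)
      exact e1.sub (e2.sub (F2_deriv hP x))
    have hval : (1 : ℝ) • f - (x • (w1 x • Gt A g x) + (1 : ℝ) • F1 A g x - w2 x • Gt A g x) =
        f - F1 A g x := by
      rw [w1_of x hx.le, w2_of x hx.le, smul_smul, one_smul, one_smul]
      abel
    rw [hval] at hd
    apply hd.congr_of_eventuallyEq
    filter_upwards [Ioi_mem_nhds hx] with y hy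
    exact beta_eq hP y hy
  · intro x hx
    have hd : HasDerivAt (fun x : ℝ => f - F1 A g x) (-(w1 x • Gt A g x)) x :=
      (F1_deriv hP x).const_sub f
    convert hd using 1
    show -(x ^ 2 - 1)⁻¹ • ((x - 1) • A x g) = -(w1 x • Gt A g x)
    rw [Gt_of_lt A g hx, w1_of x hx.le, neg_smul, smul_smul]
    congr 2
    have h3 : x - 1 ≠ 0 := by linarith
    have h4 : x + 1 ≠ 0 := by linarith
    have h5 : x ^ 2 - 1 = (x - 1) * (x + 1) := by ring
    rw [h5, mul_inv]
    field_simp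
  · have h3 : ContinuousOn (fun x : ℝ => x - 1) (Ioi 1) := by fun_prop
    exact h3.smul hP.cont
  · intro x y hx hy
    show @inner ℝ H (Inner.rclikeToReal ℂ H) ((x - 1) • A x g) ((y - 1) • A y f) =
      @inner ℝ H (Inner.rclikeToReal ℂ H) ((y - 1) • A y g) ((x - 1) • A x f)
    rw [hin, hin, ← Complex.coe_smul, ← Complex.coe_smul, ← Complex.coe_smul, ← Complex.coe_smul,
      inner_smul_left, inner_smul_right, inner_smul_left, inner_smul_right, hsa x y hx hy]
    simp only [Complex.conj_ofReal]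
    congr 1
    ring
  · intro x hx
    show κ * ‖(x - 1) • A x f‖ ^ 2 ≤
      @inner ℝ H (Inner.rclikeToReal ℂ H) ((x - 1) • A x g) ((x - 1) • A x f)
    have hR := h2 H A (A x f) (A x g) hA (pair_comp hA hP x hx) X κ₀ hX hκ0.le (hgap x hx)
    have hX1 : 0 < X - 1 := by linarith
    have h3 : κ ≤ 4 * κ₀ / (X - 1) := by rw [le_div_iff₀ hX1]; exact hκX
    have h4 : κ * ‖A x f‖ ^ 2 ≤ (inner ℂ (A x g) (A x f)).re :=
      (mul_le_mul_of_nonneg_right h3 (sq_nonneg _)).trans hR
    have h5 : @inner ℝ H (Inner.rclikeToReal ℂ H) ((x - 1) • A x g) ((x - 1) • A x f) =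
        (x - 1) ^ 2 * (inner ℂ (A x g) (A x f)).re := by
      rw [hin, ← Complex.coe_smul, ← Complex.coe_smul, inner_smul_left, inner_smul_right,
        Complex.conj_ofReal, Complex.re_ofReal_mul, Complex.re_ofReal_mul]
      ring
    rw [h5, norm_smul, mul_pow, Real.norm_eq_abs, sq_abs]
    have h6 := mul_le_mul_of_nonneg_left h4 (sq_nonneg (x - 1))
    linarith

end

end Pool.Agent.W612.BA
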